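import Pool.Agent.Results.MP_0da313_nt.AlmostAllLines
import Pool.Agent.U497.SF.Line

/-!
# Szemerédi's theorem relative to the prime values of `x (a x + b y + e) + c` on almost every line `x + y = n`

`f(x, y) = x (a x + b y + e) + c` with `b ≥ 1`, `a ≠ b`, `c ≠ 0`. For almost all `n ≤ N` for which `f(x, n - x)` is irreducible and
has no fixed prime divisor: the number of the `x ≤ T` with `f(x, n - x)` prime is the one predicted by Hardy and Littlewood,
with a constant bounded below (this part is the hand-in `AlmostAllLines` of the starting files), and in EVERY set `S` of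
`x ≤ T` for which `f(x, n - x)` is a prime all elements with the exception of at most `δ T / log N` are terms of `k`-term arithmetic
progressions contained in `S` with common difference at most `(log N) ^ B`: the points `(x, y)` lie on the line `x + y = n`, with
equal steps, at distances at most `√2 (log N) ^ B`.

New (`Pool/Agent/U497/SF`): a common prime factor `p` of `F(x)` and `F(x + t)`, `F(x) = f(x, n - x) = A x² + (b n + e) x + c`,
`A = a - b`, divides `(b n + e)² - 4 A c - A² t²`, so it fixes `n` modulo `p` up to two classes; a high moment over `n` shows that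
almost all `F` have few common prime factors of medium size for all `t ≤ (log N) ^ B`, large common factors are removed from
`F(x)`; the product of `1 - ρ(p) / p`, `ρ(p)` the number of the roots of `F` modulo `p`, is at most a constant times `1 / log N` for
almost all `n` by a second moment. Then the theorem of Szemerédi relative to sifted sets of the starting files (`K3h89/SZ`) applies.
-/

set_option autoImplicit false

namespace Pool.Agent.Results.MP_0da313_nt.SubsetsOnAlmostAllLines

open Finset Filter Topology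

/-- The polynomial `f(x, y) = x (a x + b y + e) + c`. -/
def f (a b e c x y : ℤ) : ℤ := x * (a * x + b * y + e) + c

/-- `g_n(x) = f(x, n - x)` as a polynomial in `x`. -/
noncomputable def g (a b e c n : ℤ) : Polynomial ℤ :=
  Polynomial.C (a - b) * Polynomial.X ^ 2 + Polynomial.C (b * n + e) * Polynomial.X + Polynomial.C c

/-- The conditions of the problem for one `n`: `f(x, n - x)` is irreducible and has no fixed prime divisor. -/
def Admissible (a b e c n : ℤ) : Prop :=
  Irreducible (g a b e c n) ∧ ∀ p : ℕ, p.Prime → ∃ x : ℤ, ¬ (p : ℤ) ∣ f a b e c x (n - x)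

/-- The products which define the constant `C(A, β, c)` of Hardy and Littlewood for `A x² + β x + c`, over the primes
`p ≤ z` (`jacobiSym Δ p` is the Legendre symbol). -/
noncomputable def partialC (A β c : ℤ) (z : ℕ) : ℝ :=
  (if Odd (A + β) then 1 / 2 else 1) *
    (∏ p ∈ (Icc 3 z).filter (fun p : ℕ => p.Prime ∧ (p : ℤ) ∣ A ∧ (p : ℤ) ∣ β), (p : ℝ) / (p - 1)) *
    ∏ p ∈ (Icc 3 z).filter (fun p : ℕ => p.Prime ∧ ¬ (p : ℤ) ∣ A),
      (1 - (jacobiSym (β ^ 2 - 4 * A * c) p : ℝ) / (p - 1))

/-- The `1 ≤ x ≤ T` with `f(x, n - x)` a (positive) prime. -/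
def arguments (a b e c n : ℤ) (T : ℕ) : Set ℕ := {x : ℕ | 1 ≤ x ∧ x ≤ T ∧ (f a b e c x (n - x)).toNat.Prime}

/-- The number is as predicted: the products converge to a constant `K ≥ κ`, and the number of the `x ≤ T` with
`f(x, n - x)` prime is `2 K ∑_{x ≤ T} 1 / log f(x, n - x)` up to `δ T / log T`. -/
def AsPredicted (a b e c : ℤ) (κ δ : ℝ) (T : ℕ) (n : ℤ) : Prop :=
  ∃ K : ℝ, Tendsto (partialC (a - b) (b * n + e) c) atTop (𝓝 K) ∧ κ ≤ K ∧
    |((arguments a b e c n T).ncard : ℝ) - 2 * K * ∑ x ∈ Icc 1 T, 1 / Real.log ((f a b e c x (n - x) : ℤ) : ℝ)| ≤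
      δ * (T / Real.log T)

/-- `x` is a term of an arithmetic progression with `k` terms, contained in `S`, with common difference at most `D`. -/
def InProgression (S : Set ℕ) (k : ℕ) (D : ℝ) (x : ℕ) : Prop :=
  ∃ y r : ℕ, 1 ≤ r ∧ (r : ℝ) ≤ D ∧ (∀ i < k, y + i * r ∈ S) ∧ ∃ i < k, x = y + i * r

/-- In every set `S` of arguments `x ≤ T` of primes on the line `x + y = n` all but at most `δ T / log N` elements are terms
of `k`-term progressions in `S` with difference at most `(log N) ^ B`. -/
def SubsetsRich (k : ℕ) (a b e c : ℤ) (δ : ℝ) (B N T : ℕ) (n : ℤ) : Prop :=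
  ∀ S ⊆ arguments a b e c n T,
    (Set.ncard {x : ℕ | x ∈ S ∧ ¬ InProgression S k (Real.log N ^ B) x} : ℝ) ≤ δ * (T / Real.log N)

open Classical in
/-- The number of the `n ≤ N` which satisfy the conditions of the problem and for which one of the two conclusions
fails. -/
noncomputable def exceptions (k : ℕ) (a b e c : ℤ) (κ δ : ℝ) (B N T : ℕ) : ℕ :=
  ((Icc 1 N).filter (fun n : ℕ => Admissible a b e c n ∧
    ¬ (AsPredicted a b e c κ δ T n ∧ SubsetsRich k a b e c δ B N T n))).card

lemma arguments_eq (a b e c : ℤ) (n T : ℕ) :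
    arguments a b e c n T = ((Pool.Agent.U497.SF.PL (a - b) b e c n T : Finset ℕ) : Set ℕ) := by
  ext x
  rw [arguments, Pool.Agent.U497.SF.PL, mem_coe, mem_filter, mem_Icc, Set.mem_ofPred_eq]
  have e1 : f a b e c x ((n : ℤ) - x) = (a - b) * (x : ℤ) ^ 2 + (b * n + e) * x + c := by
    unfold f
    ring
  rw [e1]
  tauto

/-- **Theorem.** -/
theorem result (a b e c : ℤ) (hb : 1 ≤ b) (hab : a ≠ b) (hc : c ≠ 0) (k : ℕ) (hk : 2 ≤ k) :
    ∃ C₁ : ℕ, ∀ ε : ℝ, 0 < ε → ∃ κ : ℝ, 0 < κ ∧ ∀ δ : ℝ, 0 < δ → ∀ C₂ : ℕ, ∃ B N₀ : ℕ, ∀ N : ℕ, N₀ ≤ N → ∀ T : ℕ,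
      (N : ℝ) ≤ T * Real.log N ^ C₂ → (T : ℝ) * Real.log N ^ C₁ ≤ N →
      (exceptions k a b e c κ δ B N T : ℝ) ≤ ε * N := by
  classical
  obtain ⟨C₁, h1⟩ := AlmostAllLines.result a b e c hb hab hc
  refine ⟨C₁, fun ε hε => ?_⟩
  obtain ⟨κ, hκ, h1⟩ := h1 (ε / 2) (by positivity)
  refine ⟨κ, hκ, fun δ hδ C₂ => ?_⟩
  obtain ⟨N₁, h1⟩ := h1 δ hδ C₂
  obtain ⟨B, N₂, h2⟩ := Pool.Agent.U497.SF.line (a - b) b e c (sub_ne_zero.2 hab) (by omega) k hk C₂ δ (ε / 2) hδ
    (by positivity)
  refine ⟨B, max (max N₁ N₂) 3, fun N hN T hT1 hT2 => ?_⟩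
  have hN1 : N₁ ≤ N := (le_max_left _ _).trans ((le_max_left _ _).trans hN)
  have hN2 : N₂ ≤ N := (le_max_right _ _).trans ((le_max_left _ _).trans hN)
  have hN3 : 3 ≤ N := (le_max_right _ _).trans hN
  have hlog : 1 ≤ Real.log (N : ℝ) := by
    rw [Real.le_log_iff_exp_le (by exact_mod_cast (by omega : 0 < N))]
    have h3 : (3 : ℝ) ≤ N := by exact_mod_cast hN3
    have := Real.exp_one_lt_d9
    linarith
  have hTN : T ≤ N := by
    have h3 : (T : ℝ) ≤ T * Real.log N ^ C₁ := le_mul_of_one_le_right (Nat.cast_nonneg _) (one_le_pow₀ hlog)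
    exact_mod_cast h3.trans hT2
  have h3 := h1 N hN1 T hT1 hT2
  obtain ⟨Bad, b1, b2, b3⟩ := h2 N T hN2 hT1 hTN
  set E1 := (Icc 1 N).filter (fun n : ℕ => AlmostAllLines.Admissible a b e c n ∧
    ¬ (AlmostAllLines.Represented a b e c n ∧ AlmostAllLines.Good a b e c κ δ T n)) with hE1
  have hE1c : (E1.card : ℝ) ≤ ε / 2 * N := by
    refine le_trans (le_of_eq ?_) h3
    unfold AlmostAllLines.exceptions
    rw [hE1]
  have hsub : (Icc 1 N).filter (fun n : ℕ => Admissible a b e c n ∧
      ¬ (AsPredicted a b e c κ δ T n ∧ SubsetsRich k a b e c δ B N T n)) ⊆ E1 ∪ Bad := by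
    intro n hn
    rw [mem_filter] at hn
    obtain ⟨hnI, hadm, hng⟩ := hn
    rw [mem_union]
    by_contra hcon
    rw [not_or] at hcon
    obtain ⟨n1, n2⟩ := hcon
    have hg : AlmostAllLines.Represented a b e c n ∧ AlmostAllLines.Good a b e c κ δ T n := by
      by_contra h6
      exact n1 (mem_filter.2 ⟨hnI, hadm, h6⟩)
    apply hng
    refine ⟨?_, fun S hS => ?_⟩
    · obtain ⟨K, g1, g2, g3⟩ := hg.2
      refine ⟨K, g1, g2, ?_⟩
      have e1 : ((arguments a b e c n T).ncard : ℝ) = (AlmostAllLines.rep a b e c n T : ℝ) := by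
        have e2 : arguments a b e c n T =
            (((Icc 1 T).filter (fun x : ℕ => (AlmostAllLines.f a b e c x (n - x)).toNat.Prime) : Finset ℕ) : Set ℕ) := by
          ext x
          rw [arguments, mem_coe, mem_filter, mem_Icc, Set.mem_ofPred_eq]
          unfold f AlmostAllLines.f
          tauto
        rw [e2, Set.ncard_coe_finset]
        rfl
      rw [e1]
      exact g3
    · rw [arguments_eq] at hS
      have hfin : S.Finite := (Finset.finite_toSet _).subset hS
      have hS2 : hfin.toFinset ⊆ Pool.Agent.U497.SF.PL (a - b) b e c n T := by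
        intro x hx
        exact mem_coe.1 (hS (hfin.mem_toFinset.1 hx))
      have hob : ∀ p : ℕ, p.Prime → ∃ x : ℤ, ¬ (p : ℤ) ∣ (a - b) * x ^ 2 + (b * n + e) * x + c := by
        intro p hp
        obtain ⟨x, hx⟩ := hadm.2 p hp
        refine ⟨x, ?_⟩
        have e1 : f a b e c x ((n : ℤ) - x) = (a - b) * x ^ 2 + (b * n + e) * x + c := by
          unfold f
          ring
        rwa [e1] at hx
      refine le_trans (le_of_eq ?_) (b3 n hnI n2 hob hfin.toFinset hS2)
      congr 2
      ext x
      unfold InProgression Pool.Agent.U497.SP.InP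
      simp only [Set.Finite.mem_toFinset]
  have h6 : (exceptions k a b e c κ δ B N T : ℝ) ≤ E1.card + Bad.card := by
    unfold exceptions
    have h7 := (card_le_card hsub).trans (card_union_le _ _)
    exact_mod_cast h7
  linarith

end Pool.Agent.Results.MP_0da313_nt.SubsetsOnAlmostAllLines
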